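import Pool.Agent.Lib.MP_baf44c_co.Q1.RigidTypes

/-!
Rigidity for `p = 157`: searches evaluated in the kernel.
-/

set_option autoImplicit false
set_option maxRecDepth 100000

namespace Pool.Agent.Lib.MP_baf44c_co.Q1.Run

open Pool.Agent.Lib.MP_baf44c_co.Q1.Dfs

theorem r157_c : run3 157 1 8 = true := by decide +kernel

theorem r157_4 : run4 157 92 93 8 = true := by decide +kernel

theorem r157_3 : run4 157 84 85 8 = true := by decide +kernel

theorem r157_13 : run4 157 80 81 8 = true := by decide +kernel

theorem rigAll_157 [Fact (Nat.Prime 157)] : RigAll 157 := by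
  have hlm : lm 157 = 8 := rfl
  refine rigAll_of (by norm_num) (by rw [hlm]; exact r157_c) ?_
  rintro ℓ (⟨rfl, h4⟩ | ⟨hℓ, h2, hd⟩)
  · refine ⟨92, 93, by norm_num, by norm_num, by norm_num, by norm_num, by norm_num,
      by norm_num, by rw [hlm]; exact r157_4, ?_⟩
    exact Or.inl ⟨rfl, by decide +kernel⟩
  have hm : ℓ ∈ [2, 2, 3, 13] := by
    refine mem_list_primes_of_dvd_prod (Nat.prime_iff.1 hℓ) (fun q hq => ?_) (by simpa using hd)
    simp only [List.mem_cons, List.not_mem_nil, or_false] at hq
    rcases hq with rfl | rfl | rfl | rfl <;> exact Nat.prime_iff.1 (by norm_num)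
  simp only [List.mem_cons, List.not_mem_nil, or_false] at hm
  have hm' : ℓ = 3 ∨ ℓ = 13 := by omega
  rcases hm' with rfl | rfl
  · refine ⟨84, 85, by norm_num, by norm_num, by norm_num, by norm_num, by norm_num,
      by norm_num, by rw [hlm]; exact r157_3, ?_⟩
    exact Or.inr ⟨by norm_num, Or.inr (by decide +kernel)⟩
  · refine ⟨80, 81, by norm_num, by norm_num, by norm_num, by norm_num, by norm_num,
      by norm_num, by rw [hlm]; exact r157_13, ?_⟩
    exact Or.inr ⟨by norm_num, Or.inl (by decide +kernel)⟩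

end Pool.Agent.Lib.MP_baf44c_co.Q1.Run
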